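import Pool.Agent.Q280.SF.G

/-!
# The field responsible for the Leopoldt defects at a prime

Let `Q` be the algebraic closure of `ℚ` and `p` a prime; all number fields are subfields of `Q`, and
`δ(K)` is the Leopoldt defect of `K` at `p`: the rank of the units of `K` minus the dimension over
`ℚ_p` of the space spanned by the vectors `(log_p σ ε)_σ`, `ε` a unit of `K`, where `σ` runs through
the embeddings of `K` into an algebraic closure of `ℚ_p`.

There is a field `M ⊆ Q` (finite or infinite over `ℚ`) such that for a field `N ⊆ Q`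

  `δ(K) = δ(K ∩ N)` for all number fields `K` if and only if `M ⊆ N`.

* `M` is the compositum of the critical number fields, those `K` with `δ(K') < δ(K)` for all proper
  subfields `K'`; it is Galois over `ℚ`.
* `M = ℚ` if and only if Leopoldt's conjecture is true at `p` for all number fields; and if `M ≠ ℚ`
  then the Galois group of `M` is not commutative.
* `M` is a number field if and only if the defects at `p` of all number fields are bounded.
* The defect is supermodular: `δ(K) + δ(K') ≤ δ(K K') + δ(K ∩ K')`.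
* Every number field `K` has a smallest subfield `K₀` with `δ(K₀) = δ(K)`: for `K' ⊆ K` one has
  `δ(K') = δ(K)` if and only if `K₀ ⊆ K'`.

Proof. Let `X = ℚ_p ⊗ U`, where `U` is the group of all units of the ring of all algebraic integers,
and `W ⊆ X` the space of the vectors whose conjugates are all killed by the logarithm. By Galois
descent (norms) and Dirichlet's theorem the invariants of `Gal(Q / K)` in `W` have dimension `δ(K)`;
`M` is the field fixed by the automorphisms which act trivially on `W`. The commutative case is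
the theorem of Ax and Brumer (from the starting library).
-/

set_option autoImplicit false

namespace Pool.Agent.Results.MP_5f2860_nt.CanonicalField

open NumberField Module IntermediateField Pool.Agent.Q280.SF

/-- `K` is a number field, and its Leopoldt defect at `p` is `d`: the dimension of the space over
`ℚ_p` spanned by the vectors `(L (σ ε))_σ`, `ε` a unit of `K`, plus `d` is the rank of the units
(`L` is the `p`-adic logarithm, `σ` runs through the embeddings of `K` into the algebraic closure of
`ℚ_p`). -/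
def Defect (p : ℕ) [Fact p.Prime] (L : PadicAlgCl p → PadicAlgCl p)
    (K : IntermediateField ℚ (AlgebraicClosure ℚ)) (d : ℕ) : Prop :=
  ∃ _ : NumberField K, finrank ℚ_[p] (Submodule.span ℚ_[p] (Set.range
    fun (ε : (𝓞 K)ˣ) (σ : K →+* PadicAlgCl p) => L (σ ((ε : 𝓞 K) : K)))) + d = Units.rank K

/-- `K` is a number field, and the defect of every proper subfield is smaller than that of `K`. -/
def Critical (p : ℕ) [Fact p.Prime] (L : PadicAlgCl p → PadicAlgCl p)
    (K : IntermediateField ℚ (AlgebraicClosure ℚ)) : Prop :=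
  FiniteDimensional ℚ K ∧ ∀ K' : IntermediateField ℚ (AlgebraicClosure ℚ), K' < K →
    ∀ d d' : ℕ, Defect p L K d → Defect p L K' d' → d' < d

section Proof

theorem isAlgebraic_closure : Algebra.IsAlgebraic ℚ (AlgebraicClosure ℚ) := by
  have h : @Algebra.IsAlgebraic ℚ (AlgebraicClosure ℚ) _ _ (AlgebraicClosure.instAlgebra ℚ) := inferInstance
  have h2 : (DivisionRing.toRatAlgebra : Algebra ℚ (AlgebraicClosure ℚ)) = AlgebraicClosure.instAlgebra ℚ :=
    Subsingleton.elim _ _
  rw [h2]
  exact h

theorem isGalois_closure : IsGalois ℚ (AlgebraicClosure ℚ) := by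
  have h : @IsGalois ℚ _ (AlgebraicClosure ℚ) _ (AlgebraicClosure.instAlgebra ℚ) := inferInstance
  have h2 : (DivisionRing.toRatAlgebra : Algebra ℚ (AlgebraicClosure ℚ)) = AlgebraicClosure.instAlgebra ℚ :=
    Subsingleton.elim _ _
  rw [h2]
  exact h

attribute [local instance] isAlgebraic_closure isGalois_closure

variable {p : ℕ} [Fact p.Prime] {L : PadicAlgCl p → PadicAlgCl p}
    (hmul : ∀ x y : PadicAlgCl p, x ≠ 0 → y ≠ 0 → L (x * y) = L x + L y)
    (ι : AlgebraicClosure ℚ →ₐ[ℚ] PadicAlgCl p)

theorem defect_iff (K : IntermediateField ℚ (AlgebraicClosure ℚ)) (hK : FiniteDimensional ℚ K) (d : ℕ) :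
    Defect p L K d ↔ d = dm (rho ℚ_[p]) (KK ℚ_[p] ι hmul) K := by
  have h0 := nf_of K hK
  have h3 := rank_eq ℚ_[p] ι hmul K
  constructor
  · rintro ⟨h1, h2⟩
    omega
  · rintro rfl
    exact ⟨h0, h3⟩

theorem defect_fin {K : IntermediateField ℚ (AlgebraicClosure ℚ)} {d : ℕ} (h : Defect p L K d) :
    FiniteDimensional ℚ K := by
  obtain ⟨h1, -⟩ := h
  exact fin_of K h1

end Proof

attribute [local instance] isAlgebraic_closure isGalois_closure

/-- **Main result.** -/
theorem result (p : ℕ) [Fact p.Prime] (L : PadicAlgCl p → PadicAlgCl p)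
    (hmul : ∀ x y : PadicAlgCl p, x ≠ 0 → y ≠ 0 → L (x * y) = L x + L y)
    (hprime : L ((p : ℕ) : PadicAlgCl p) = 0)
    (hser : ∀ z : PadicAlgCl p, ‖z‖ < 1 →
      HasSum (fun n : ℕ => (-1 : PadicAlgCl p) ^ n * z ^ (n + 1) / ((n : PadicAlgCl p) + 1))
        (L (1 + z))) :
    (∀ K : IntermediateField ℚ (AlgebraicClosure ℚ), FiniteDimensional ℚ K → ∃! d, Defect p L K d) ∧
    (∀ (K K' : IntermediateField ℚ (AlgebraicClosure ℚ)) (a b c d : ℕ), Defect p L K a →
      Defect p L K' b → Defect p L (K ⊔ K') c → Defect p L (K ⊓ K') d → a + b ≤ c + d) ∧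
    (∀ K : IntermediateField ℚ (AlgebraicClosure ℚ), FiniteDimensional ℚ K →
      ∃ K₀ ≤ K, ∀ K' ≤ K, (∀ d, Defect p L K' d ↔ Defect p L K d) ↔ K₀ ≤ K') ∧
    ∃ M : IntermediateField ℚ (AlgebraicClosure ℚ),
      (∀ N : IntermediateField ℚ (AlgebraicClosure ℚ),
        (∀ K : IntermediateField ℚ (AlgebraicClosure ℚ), FiniteDimensional ℚ K →
          ∀ d, Defect p L K d ↔ Defect p L (K ⊓ N) d) ↔ M ≤ N) ∧
      M = sSup {K | Critical p L K} ∧
      IsGalois ℚ M ∧
      ((∀ K : IntermediateField ℚ (AlgebraicClosure ℚ), FiniteDimensional ℚ K → Defect p L K 0) ↔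
        M = ⊥) ∧
      ((∀ g h : M ≃ₐ[ℚ] M, g * h = h * g) → M = ⊥) ∧
      (FiniteDimensional ℚ M ↔ ∃ c, ∀ (K : IntermediateField ℚ (AlgebraicClosure ℚ)) (d : ℕ),
        Defect p L K d → d ≤ c) := by
  have hL : Pool.Agent.W245.PB.IsIwasawaLog p L := ⟨hmul, hprime, hser⟩
  let ι : AlgebraicClosure ℚ →ₐ[ℚ] PadicAlgCl p := IsAlgClosed.lift
  have hs := KK_smooth (R := ℚ_[p]) ι hmul
  have hf := KK_hf ι hmul
  have key := defect_iff hmul ι
  have hinf : ∀ K N : IntermediateField ℚ (AlgebraicClosure ℚ), FiniteDimensional ℚ K →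
      FiniteDimensional ℚ (K ⊓ N : IntermediateField ℚ (AlgebraicClosure ℚ)) := fun K N _ =>
    FiniteDimensional.of_injective (IntermediateField.inclusion (inf_le_left : K ⊓ N ≤ K)).toLinearMap
      (IntermediateField.inclusion (inf_le_left : K ⊓ N ≤ K)).injective
  have hsub : ∀ K' K : IntermediateField ℚ (AlgebraicClosure ℚ), K' ≤ K → FiniteDimensional ℚ K →
      FiniteDimensional ℚ K' := fun K' K h _ =>
    FiniteDimensional.of_injective (IntermediateField.inclusion h).toLinearMap
      (IntermediateField.inclusion h).injective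
  refine ⟨?_, ?_, ?_, mf (rho ℚ_[p]) (KK ℚ_[p] ι hmul), ?_, ?_, ?_, ?_, ?_, ?_⟩
  · intro K hK
    exact ⟨_, (key K hK _).mpr rfl, fun d hd => (key K hK d).mp hd⟩
  · intro K K' a b c d ha hb hc hd
    rw [(key K (defect_fin ha) a).mp ha, (key K' (defect_fin hb) b).mp hb, (key _ (defect_fin hc) c).mp hc,
      (key _ (defect_fin hd) d).mp hd]
    exact dm_super hs hf K K' (defect_fin ha) (defect_fin hb)
  · intro K hK
    obtain ⟨K₀, h1, h2⟩ := exists_smallest hs hf K hK
    refine ⟨K₀, h1, fun K' hK' => ?_⟩
    rw [← h2 K' hK']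
    constructor
    · intro h
      exact ((key K hK _).mp ((h _).mp ((key K' (hsub K' K hK' hK) _).mpr rfl)))
    · intro h d
      rw [key K hK, key K' (hsub K' K hK' hK), h]
  · intro N
    rw [← dm_iff hs hf]
    refine forall₂_congr fun K hK => ?_
    constructor
    · intro h
      exact (key _ (hinf K N hK) _).mp ((h _).mp ((key K hK _).mpr rfl))
    · intro h d
      rw [key K hK, key _ (hinf K N hK), h]
  · rw [mf_eq_sSup hs hf]
    congr 1
    ext K
    refine and_congr_right fun hK => forall₂_congr fun K' hK' => ?_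
    have hK'f := hsub K' K hK'.le hK
    constructor
    · intro h d d' hd hd'
      rw [(key K hK d).mp hd, (key K' hK'f d').mp hd']
      exact h
    · intro h
      exact h _ _ ((key K hK _).mpr rfl) ((key K' hK'f _).mpr rfl)
  · have h1 := mf_norm ι hmul
    have h2 : (DivisionRing.toRatAlgebra : Algebra ℚ (mf (rho ℚ_[p]) (KK ℚ_[p] ι hmul))) =
      IntermediateField.algebra' _ := Subsingleton.elim _ _
    rw [h2]
    exact { to_isSeparable := inferInstance, to_normal := h1 }
  · rw [← mf_bot_iff ι hL hmul]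
    refine forall₂_congr fun K hK => ?_
    rw [key K hK]
    exact eq_comm
  · intro hc
    refine mf_ab ι hL hmul ?_
    have h2 : (DivisionRing.toRatAlgebra : Algebra ℚ (mf (rho ℚ_[p]) (KK ℚ_[p] ι hmul))) =
      IntermediateField.algebra' _ := Subsingleton.elim _ _
    rw [h2] at hc
    exact hc
  · rw [← bdd_iff hs hf]
    refine exists_congr fun c => ⟨fun h K d hd => ?_, fun h K hK => h K _ ((key K hK _).mpr rfl)⟩
    rw [(key K (defect_fin hd) d).mp hd]
    exact h K (defect_fin hd)

end Pool.Agent.Results.MP_5f2860_nt.CanonicalField
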