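import Pool.Agent.Q5.SH.Fin1
import Pool.Agent.Q5.SH.Top
import Pool.Agent.Q224.SH.LEO
import Pool.Agent.Q224.SH.BU

/-!
# Leopoldt's conjecture in infinitely many cyclic extensions of degree `p` of an arbitrary number field

`K` is an arbitrary number field and `p` an odd prime which is unramified in `K`.  Then there are infinitely
many cyclic extensions `H/K` of degree `p`, unramified above `p`, such that the regulator map is injective on
the `χ`-part of the units of `H` for all nontrivial characters `χ` of `Gal(H/K)`; if Leopoldt's conjecture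
holds for `K` and `p` then it holds for `H` and `p`.

The proof is a joint work of the team (project SH): helper5 (plan), helper65, helper68, helper96, helper149,
helper193, helper198, helper222, helper224, helper238, helper248, helper261, helper262.
-/

set_option autoImplicit false

namespace Pool.Agent.Results.MP_5f2860_nt.CyclicExtensionsOddPrime

open NumberField IsDedekindDomain Module

/-- `p` is unramified in `K`: the ideal `(p)` is a radical ideal. -/
def Unramified (K : Type) [Field K] [NumberField K] (p : ℕ) : Prop :=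
  (Ideal.span {(p : 𝓞 K)}).IsRadical

/-- The prime `v` of `K` is unramified in the extension `H`: no prime `w` of `H` above `v` has `w² ∣ v`. -/
def UnramifiedIn {K : Type} [Field K] [NumberField K] (v : HeightOneSpectrum (𝓞 K)) (H : Type) [Field H]
    [NumberField H] [Algebra K H] : Prop :=
  ∀ w : HeightOneSpectrum (𝓞 H), w.under (𝓞 K) = v →
    ¬ v.asIdeal.map (algebraMap (𝓞 K) (𝓞 H)) ≤ w.asIdeal ^ 2

theorem result (p : ℕ) [Fact p.Prime] (hp : p ≠ 2)
    (K : Type) [Field K] [NumberField K] (hK : Unramified K p)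
    (B : Set (HeightOneSpectrum (𝓞 K))) (hB : B.Finite) :
    ∃ T : Finset (HeightOneSpectrum (𝓞 K)), T.Nonempty ∧ (∀ v ∈ T, v ∉ B) ∧
      ∃ (H : Type) (_ : Field H) (_ : NumberField H) (_ : Algebra K H) (_ : IsGalois K H),
        finrank K H = p ∧ (∀ v : HeightOneSpectrum (𝓞 K), UnramifiedIn v H ↔ v ∉ T) ∧
        Unramified H p ∧
        (∀ χ : (H ≃ₐ[K] H) →* ℂ_[p]ˣ, χ ≠ 1 →
          Pool.Agent.W289.SL.SigmaLeopoldt p K H (Set.univ : Set (K →+* ℂ_[p])) χ) ∧
        (Pool.Agent.H637R2.Leo.Leopoldt K p → Pool.Agent.H637R2.Leo.Leopoldt H p) := by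
  have hS : Pool.Agent.Q5.SG.PlaceClosed (Set.univ : Set (K →+* ℂ_[p])) := fun _ _ _ _ => Set.mem_univ _
  have hBig := Pool.Agent.Q224.SH.bu p K hK
  obtain ⟨T, hne, hTB, H, i1, i2, i3, i4, g, hg, hd, hun, hH, hbad⟩ :=
    Pool.Agent.Q5.SH.main1 hp hK Set.univ hS hBig 1 le_rfl (Or.inl rfl) B hB
  rw [pow_one] at hd
  have hcard : Nat.card (H ≃ₐ[K] H) = p := by rw [IsGalois.card_aut_eq_finrank, hd]
  have hpp : p.Prime := Fact.out
  have hord : orderOf g = p := by
    rw [← hcard]
    exact orderOf_eq_card_of_forall_mem_zpowers hg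
  have hTR : Pool.Agent.Q5.SG.TopRel (Set.univ : Set (K →+* ℂ_[p])) g := by
    refine Pool.Agent.Q5.SH.topRel_top g hord fun τ hτ => ?_
    refine Pool.Agent.Q5.SH.b_TR p hp K H hH Set.univ g hg 1 1 1 (by rw [pow_one, hd]) le_rfl le_rfl
      (hbad 1 le_rfl le_rfl) ⊤ ?_ τ hτ
    rw [IntermediateField.finrank_top', pow_one, hd]
  refine ⟨T, hne, hTB, H, i1, i2, i3, i4, hd, hun, hH, ?_, ?_⟩
  · intro χ hχ
    refine Pool.Agent.Q5.SH.b_SL p hp K H Set.univ hS g hord hTR χ ?_
    have hsimple : IsSimpleGroup (H ≃ₐ[K] H) := isSimpleGroup_of_prime_card hcard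
    rw [← MonoidHom.ker_eq_bot_iff]
    rcases hsimple.eq_bot_or_eq_top_of_normal χ.ker inferInstance with h | h
    · exact h
    · exfalso
      apply hχ
      ext x
      have hx : x ∈ χ.ker := by rw [h]; exact Subgroup.mem_top x
      rw [MonoidHom.mem_ker.1 hx]
      rfl
  · exact Pool.Agent.Q224.SH.leo p hp K H hd hK hH g hord hTR

end Pool.Agent.Results.MP_5f2860_nt.CyclicExtensionsOddPrime
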