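import Pool.Agent.Q7.LK.All
import Pool.Agent.Q7.LK.Uni
import Pool.Agent.Q7.LK.Fin2
import Pool.Agent.Y944.LC.BRU

/-!
# Leopoldt's conjecture for most cyclic extensions of odd prime degree

Let `p` be an odd prime and `F` any number field which contains a primitive `p`-th root of unity. We consider the cyclic
extensions `L = F(d^(1/p))` of degree `p` with prescribed completions at all places above the prime numbers `≤ y`
(those of `F(d₀^(1/p))`), and with prescribed orders `z_0, …, z_(k-1)` modulo `p`, different from `0`, of `d` at `k` further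
primes `q_0, …, q_(k-1)`, of norms `≤ X_0, …, X_(k-1)` (the extension is unramified at all other primes), for large `k`, `X_0`,
then `X_1` large in terms of `X_0`, and so on. Let `r` be the number of the complex places of `F` and `β = p^(-r) / (p - 1)`.

(1) The share of the fields `L` whose Leopoldt defect at `p` exceeds that of `F` is at most `β + ε`.

(2) If `F` satisfies Leopoldt's conjecture at `p` (for example if `F/ℚ` is abelian), then the share of the `L` which
satisfy it is at least `1 - β - ε`. Here `β ≤ p^(-(p-1)/2) / (p - 1)`, so for example `1 - β ≥ 5/6` for `p = 3` and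
`1 - β ≥ 99/100` for `p = 5`.

Proof. The units of relative norm `1` modulo torsion form a module over `ℤ[μ_p]`, and the `p`-adic relations between them a saturated
submodule of its `p`-adic completion. If this is not zero there is a unit `w` of relative norm `1`, not of the form
`ζ^j σ(η)/η` with a unit `η` of norm `1`, such that `w η^p` comes arbitrarily close to roots of unity of `p`-power order at the
places above `p`. By Hilbert's theorem 90 `w = σ(y)/y`, and `a = N(y)`, up to `p`-th powers, is not a power of `d`; it has order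
divisible by `p` at the unramified primes, it is locally a power of `d` at the ramified ones and belongs to one of only `p` local
classes at each place above `p`. The power residue symbols which describe the group of these `a` are equidistributed over
the ensemble by the law of reciprocity (deduced from Artin's law, proved by our team) and Chebotarev's theorem, and
the mean of the number of the nontrivial `a` is at most `p^(-r)`; with `a` also `a^2, …, a^(p-1)` are nontrivial.

The parts were proved together with helpers 14, 22, 65, 123, 129, 150, 153, 162, 224, 241, 262, 265, 277 and 285 after the model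
of the case `p = 2` (`MostQuadraticExtensions`, project of helper283).
-/

set_option autoImplicit false

namespace Pool.Agent.Results.MP_5f2860_nt.MostCyclicExtensions

open NumberField IsDedekindDomain Filter Topology

section Ensemble

variable {F : Type} [Field F] [NumberField F]

/-- The order of `a` at `v` modulo `p`. -/
noncomputable def orderMod (p : ℕ) (v : HeightOneSpectrum (𝓞 F)) (a : F) : ZMod p :=
  -((WithZero.log (v.valuation F a) : ℤ) : ZMod p)

/-- `a` is the `p`-th power of a nonzero element of the completion of `F` at `v`. -/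
def PowerAt (p : ℕ) (v : HeightOneSpectrum (𝓞 F)) (a : F) : Prop :=
  a ≠ 0 ∧ ∃ s : v.adicCompletion F, (a : v.adicCompletion F) = s ^ p

/-- `v` lies above a prime number `l ≤ y`. -/
def Small (y : ℕ) (v : HeightOneSpectrum (𝓞 F)) : Prop :=
  ∃ l : ℕ, l.Prime ∧ l ≤ y ∧ (l : 𝓞 F) ∈ v.asIdeal

open Classical in
/-- Among the primes not above prime numbers `≤ y` the order of `d` modulo `p` is `z i` at the prime `q i` and `0` at the
others; and at the primes above prime numbers `≤ y` the number `d` is equal to `d₀` up to local `p`-th powers. So for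
nonzero `z i` and different `q i` the extension `F(d^(1/p))` is ramified, among the primes not above prime numbers
`≤ y`, exactly at the `q i`, and its completions at the other primes are those of `F(d₀^(1/p))`. -/
structure Fits (p y : ℕ) (d₀ : F) {k : ℕ} (z : Fin k → ZMod p) (q : Fin k → HeightOneSpectrum (𝓞 F)) (d : F) :
    Prop where
  ne : d ≠ 0
  ram : ∀ v : HeightOneSpectrum (𝓞 F), ¬ Small y v → orderMod p v d = ∑ i, if q i = v then z i else 0
  loc : ∀ v : HeightOneSpectrum (𝓞 F), Small y v → PowerAt p v (d / d₀)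

/-- The ensemble: the tuples of `k` different primes `q i`, not above prime numbers `≤ y`, of norm `≤ X i`, to which a
`d` belongs. -/
def Ensemble (p y : ℕ) (d₀ : F) {k : ℕ} (z : Fin k → ZMod p) (X : Fin k → ℕ) : Set (Fin k → HeightOneSpectrum (𝓞 F)) :=
  {q | (Function.Injective q ∧ ∀ i, ¬ Small y (q i) ∧ Ideal.absNorm (q i).asIdeal ≤ X i) ∧
    ∃ d, Fits p y d₀ z q d}

end Ensemble

/-- `P X` is true for all large `X 0`, for all `X 1` which are large in terms of `X 0`, …, for all `X (k-1)` which are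
large in terms of the others. -/
def Nested : (k : ℕ) → ((Fin k → ℕ) → Prop) → Prop
  | 0, P => P Fin.elim0
  | k + 1, P => Nested k fun X => ∀ᶠ x : ℕ in atTop, P (Fin.snoc (α := fun _ => ℕ) X x)

/-- `L` is the extension `F(d^(1/p))`, of degree `p`. -/
structure IsKummer (p : ℕ) (F L : Type) [Field F] [Field L] [Algebra F L] (d : F) : Prop where
  deg : Module.finrank F L = p
  npow : ∀ x : F, d ≠ x ^ p
  root : ∃ x : L, x ^ p = algebraMap F L d

/-- Leopoldt's conjecture for the number field `K` and the prime `p`, in the form of the frozen statement. -/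
def Leopoldt (K : Type) [Field K] [NumberField K] (p : ℕ) [Fact p.Prime] : Prop :=
  ∀ (n : ℕ) (ε : Fin n → (𝓞 K)ˣ),
    (∀ i, ((ε i : 𝓞 K) - 1) ∈ (Ideal.span {((p : ℕ) : 𝓞 K)}).radical) →
    (∀ c : Fin n → ℤ, ∏ i, ε i ^ c i = 1 → c = 0) →
    ∀ (a : Fin n → PadicInt p) (m : ℕ → Fin n → ℤ),
      (∀ i, Tendsto (fun k => ((m k i : ℤ) : PadicInt p)) atTop (𝓝 (a i))) →
      (∀ N : ℕ, ∀ᶠ k in atTop,
        ((p : ℕ) : 𝓞 K) ^ N ∣ (((∏ i, ε i ^ m k i : (𝓞 K)ˣ) : 𝓞 K) - 1)) →
      a = 0

/-- The vector `a` of `p`-adic integers is a relation between the units `ε i`: there are integral vectors `m k` which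
tend to `a`, such that the units `∏ ε i ^ m k i` tend `p`-adically to `1`. -/
def IsRelation (p : ℕ) [Fact p.Prime] (K : Type) [Field K] [NumberField K] {n : ℕ} (ε : Fin n → (𝓞 K)ˣ)
    (a : Fin n → ℤ_[p]) : Prop :=
  ∃ m : ℕ → Fin n → ℤ, (∀ i, Tendsto (fun k => ((m k i : ℤ) : ℤ_[p])) atTop (𝓝 (a i))) ∧
    ∀ N : ℕ, ∀ᶠ k in atTop, (p : 𝓞 K) ^ N ∣ ((∏ i, ε i ^ m k i : (𝓞 K)ˣ) : 𝓞 K) - 1

/-- The Leopoldt defect of `K` at `p` is at least `t`: there are multiplicatively independent units of `K` with `t`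
relations which are linearly independent over the `p`-adic integers. -/
def DefectAtLeast (p : ℕ) [Fact p.Prime] (K : Type) [Field K] [NumberField K] (t : ℕ) : Prop :=
  ∃ (n : ℕ) (ε : Fin n → (𝓞 K)ˣ), (∀ c : Fin n → ℤ, ∏ i, ε i ^ c i = 1 → c = 0) ∧
    ∃ a : Fin t → Fin n → ℤ_[p], LinearIndependent ℤ_[p] a ∧ ∀ j, IsRelation p K ε (a j)

/-- `β = p^(-r) / (p - 1)`, `r` the number of the complex places of `F` -/
noncomputable def beta (p : ℕ) (F : Type) [Field F] [NumberField F] : ℝ :=
  (1 / (p : ℝ)) ^ InfinitePlace.nrComplexPlaces F / (p - 1)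

section Proof

theorem nested_iff : ∀ (k : ℕ) (P : (Fin k → ℕ) → Prop), Nested k P ↔ Q283.LQ.Nest k P
  | 0, _ => Iff.rfl
  | k + 1, _ => nested_iff k _

theorem defect_iff (p : ℕ) [Fact p.Prime] (K : Type) [Field K] [NumberField K] (t : ℕ) :
    DefectAtLeast p K t ↔ Q7.LK.Df p K (Ideal.span {(p : 𝓞 K)}) t := by
  unfold DefectAtLeast Q7.LK.Df IsRelation Q7.LK.Rel
  simp only [Ideal.span_singleton_pow, Ideal.mem_span_singleton]

theorem leopoldt_iff (p : ℕ) [Fact p.Prime] (K : Type) [Field K] [NumberField K] :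
    Leopoldt K p ↔ ¬ DefectAtLeast p K 1 := by
  rw [defect_iff]
  exact Q7.LK.t_LEO p K

variable {F : Type} [Field F] [NumberField F]

theorem fits_iff {p : ℕ} [Fact p.Prime] {y : ℕ} {d₀ : F} {k : ℕ} {z : Fin k → ZMod p}
    {q : Fin k → HeightOneSpectrum (𝓞 F)} {d : F} : Fits p y d₀ z q d ↔ Q7.LK.Fits p y d₀ z q d := by
  constructor
  · intro h
    exact ⟨h.ne, h.ram, fun v hv => (Q7.LK.t_CPL p F v _).mpr (h.loc v hv)⟩
  · intro h
    exact ⟨h.ne, h.ram, fun v hv => (Q7.LK.t_CPL p F v _).mp (h.loc v hv)⟩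

/-- the complement of the bad set -/
theorem compl_bound {α : Type} {E B G : Set α} (hE : E.Finite) (hB : B ⊆ E) (hG : G ⊆ E) (h : ∀ q ∈ E, q ∈ B ∨ q ∈ G)
    {b : ℝ} (hb : (B.ncard : ℝ) ≤ b * E.ncard) : (1 - b) * E.ncard ≤ (G.ncard : ℝ) := by
  have h1 : E ⊆ B ∪ G := fun q hq => h q hq
  have h2 := Set.ncard_le_ncard h1 ((hE.subset hB).union (hE.subset hG))
  have h3 := Set.ncard_union_le B G
  have h4 : (E.ncard : ℝ) ≤ B.ncard + G.ncard := by exact_mod_cast h2.trans h3
  have h5 : (1 - b) * (E.ncard : ℝ) = E.ncard - b * E.ncard := by ring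
  rw [h5]
  linarith

/-- the field of the `p`-th roots of unity has `(p - 1) / 2` complex places -/
theorem places_ge {p : ℕ} [Fact p.Prime] (hp : p ≠ 2) {ζ : F} (hζ : IsPrimitiveRoot ζ p) :
    (p - 1) / 2 ≤ InfinitePlace.nrComplexPlaces F := by
  have hpp : p.Prime := Fact.out
  have htc : IsTotallyComplex F := Q7.LK.tot_complex hp hζ
  have h1 := IsTotallyComplex.finrank F
  have h2 : p - 1 ≤ Module.finrank ℚ F := by
    have h3 := minpoly.natDegree_le (A := ℚ) ζ
    rw [← Polynomial.cyclotomic_eq_minpoly_rat hζ hpp.pos, Polynomial.natDegree_cyclotomic,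
      Nat.totient_prime hpp] at h3
    exact h3
  omega

theorem beta_le {p : ℕ} [Fact p.Prime] (hp : p ≠ 2) {ζ : F} (hζ : IsPrimitiveRoot ζ p) :
    beta p F ≤ (1 / (p : ℝ)) ^ ((p - 1) / 2) / (p - 1) := by
  have hpp : p.Prime := Fact.out
  have h1 : (1 : ℝ) < p := by exact_mod_cast hpp.one_lt
  unfold beta
  refine div_le_div_of_nonneg_right ?_ (by linarith)
  refine pow_le_pow_of_le_one (by positivity) ?_ (places_ge hp hζ)
  rw [div_le_one (by linarith)]
  exact h1.le

end Proof

/-- **Main result.** -/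
theorem result (p : ℕ) [Fact p.Prime] (hp : p ≠ 2) (F : Type) [Field F] [NumberField F] (ζ : F)
    (hζ : IsPrimitiveRoot ζ p) :
    (∃ y₀ : ℕ, ∀ y, y₀ ≤ y → ∀ d₀ : F, d₀ ≠ 0 →
      (∀ (k : ℕ) (z : Fin k → ZMod p) (q : Fin k → HeightOneSpectrum (𝓞 F)) (d d' : F),
        Fits p y d₀ z q d → Fits p y d₀ z q d' → ∃ x : F, d = d' * x ^ p) ∧
      ∀ ε : ℝ, 0 < ε → ∃ k₀ : ℕ, ∀ k, k₀ ≤ k → ∀ z : Fin k → ZMod p, (∀ i, z i ≠ 0) → Nested k fun X =>
        (Ensemble p y d₀ z X).Finite ∧ (Ensemble p y d₀ z X).Nonempty ∧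
        ({q ∈ Ensemble p y d₀ z X | ∃ (s : ℕ) (d : F), Fits p y d₀ z q d ∧ ¬ DefectAtLeast p F (s + 1) ∧
            ∃ (L : Type) (_ : Field L) (_ : NumberField L) (_ : Algebra F L),
              IsKummer p F L d ∧ DefectAtLeast p L (s + 1)}.ncard : ℝ) ≤
          (beta p F + ε) * (Ensemble p y d₀ z X).ncard ∧
        ((Leopoldt F p ∨ (IsGalois ℚ F ∧ ∀ g h : F ≃ₐ[ℚ] F, g * h = h * g)) →
          (1 - beta p F - ε) * (Ensemble p y d₀ z X).ncard ≤
            ({q ∈ Ensemble p y d₀ z X | ∀ (d : F) (L : Type) [Field L] [NumberField L] [Algebra F L],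
              Fits p y d₀ z q d → IsKummer p F L d → Leopoldt L p}.ncard : ℝ))) ∧
    beta p F ≤ (1 / (p : ℝ)) ^ ((p - 1) / 2) / (p - 1) := by
  refine ⟨?_, beta_le hp hζ⟩
  obtain ⟨y1, hy1⟩ := Q7.LK.t_SHARE p hp F ζ hζ
  obtain ⟨y2, hy2⟩ := Q7.LK.uniq Q7.LK.t_BAS Q7.LK.t_BASE p hp F ζ hζ
  refine ⟨max y1 y2, fun y hy d₀ hd₀ => ⟨fun k z q d d' hd hd' => ?_, fun ε hε => ?_⟩⟩
  · obtain ⟨x, hx⟩ := hy2 y (le_trans (le_max_right _ _) hy) d₀ hd₀ k z q d d' (fits_iff.mp hd) (fits_iff.mp hd')
    refine ⟨x, ?_⟩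
    rw [← hx, mul_div_cancel₀ _ hd'.ne]
  obtain ⟨k0, hk0⟩ := hy1 y (le_trans (le_max_left _ _) hy) (Q7.LK.AT p) (fun _ => 0)
    (Q7.LK.t_ATL p hp F ζ hζ) d₀ hd₀ ε hε
  refine ⟨max k0 1, fun k hk z hz => (nested_iff k _).mpr (Q7.LK.nest_mono k _ _ (fun X hX => ?_)
    (hk0 k (le_trans (le_max_left _ _) hk) z hz))⟩
  have hk1 : 1 ≤ k := le_trans (le_max_right _ _) hk
  obtain ⟨hfin, hpos, hN⟩ := hX
  rw [finsum_zero, pow_zero, one_mul] at hN
  have hE : Ensemble p y d₀ z X =
      {q ∈ (Q283.LQ.Box y X : Set (Fin k → HeightOneSpectrum (𝓞 F))) | ∃ d, Q7.LK.Fits p y d₀ z q d} := by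
    ext q
    simp only [Ensemble, Q283.LQ.Box, Set.mem_ofPred_eq, fits_iff]
    rfl
  have hEfin : (Ensemble p y d₀ z X).Finite := by
    rw [hE]
    exact hfin.subset (fun q hq => hq.1)
  rw [← hE] at hpos hN
  have hmain : ({q ∈ Ensemble p y d₀ z X | ∃ (s : ℕ) (d : F), Fits p y d₀ z q d ∧ ¬ DefectAtLeast p F (s + 1) ∧
          ∃ (L : Type) (_ : Field L) (_ : NumberField L) (_ : Algebra F L),
            IsKummer p F L d ∧ DefectAtLeast p L (s + 1)}.ncard : ℝ) ≤
        (beta p F + ε) * (Ensemble p y d₀ z X).ncard := by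
    refine le_trans ?_ hN
    have h2 : {q ∈ Ensemble p y d₀ z X | ∃ (s : ℕ) (d : F), Fits p y d₀ z q d ∧ ¬ DefectAtLeast p F (s + 1) ∧
          ∃ (L : Type) (_ : Field L) (_ : NumberField L) (_ : Algebra F L),
            IsKummer p F L d ∧ DefectAtLeast p L (s + 1)} ⊆
        {q ∈ (Q283.LQ.Box y X : Set (Fin k → HeightOneSpectrum (𝓞 F))) | ∃ D, Q7.LK.Fits p y d₀ z q D ∧
          Q7.LK.Bad p (Q7.LK.AT p) D} := by
      rintro q ⟨hq, s, d, hd, hs, L, i1, i2, i3, hL, hdef⟩
      refine ⟨hq.1, d, fits_iff.mp hd, ?_⟩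
      refine Q7.LK.t_CR2 p hp F L ζ d hζ ⟨hL.deg, hL.root⟩ (fun ⟨x, hx⟩ => hL.npow x hx) s
        (fun h => hs ((defect_iff p F (s + 1)).mpr h)) ?_
      rw [Ideal.map_span, Set.image_singleton, map_natCast]
      exact (defect_iff p L _).mp hdef
    exact_mod_cast Set.ncard_le_ncard h2 (hfin.subset (fun q hq => hq.1))
  refine ⟨hEfin, ?_, hmain, fun hF => ?_⟩
  · rw [← Set.ncard_pos hEfin]
    exact_mod_cast hpos
  · have hF' : Leopoldt F p := by
      rcases hF with h | ⟨h1, h2⟩
      · exact h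
      · exact Y944.LC.bru F p h1 h2
    refine le_trans (le_of_eq (by ring)) (compl_bound hEfin (fun q hq => hq.1) (fun q hq => hq.1)
      (fun q hq => ?_) hmain)
    by_cases hc : q ∈ {q ∈ Ensemble p y d₀ z X | ∃ (s : ℕ) (d : F), Fits p y d₀ z q d ∧ ¬ DefectAtLeast p F (s + 1) ∧
          ∃ (L : Type) (_ : Field L) (_ : NumberField L) (_ : Algebra F L),
            IsKummer p F L d ∧ DefectAtLeast p L (s + 1)}
    · exact Or.inl hc
    · refine Or.inr ⟨hq, ?_⟩
      intro d L _ _ _ hd hL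
      rw [leopoldt_iff]
      intro hdef
      exact hc ⟨hq, 0, d, hd, (leopoldt_iff p F).mp hF', L, inferInstance, inferInstance, inferInstance, hL, hdef⟩

end Pool.Agent.Results.MP_5f2860_nt.MostCyclicExtensions
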