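import Pool.Agent.Q283.LQ.Imp2
import Pool.Agent.Y944.LC.BRU

/-!
# Leopoldt's conjecture at `2` for most quadratic extensions of a number field

Let `F` be any number field. We consider the quadratic extensions `L = F(√d)` with prescribed completions at the
real places and at the places above the prime numbers `≤ y` (those of `F(√d₀)`), which are ramified at exactly
`k` further primes `q_0, …, q_(k-1)`, of norms `≤ X_0, …, X_(k-1)`, for large `k`, `X_0`, then `X_1` large in terms of
`X_0`, and so on. Let `e` be the number of the complex places of `L` minus that of `F`, `μ = 2^(-e)` and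
`β = μ - μ²/3 + μ³/21`.

(1) The share of the fields `L` whose Leopoldt defect at `2` exceeds that of `F` by at least `t` is at most
`μ^t / ∏_(i ≤ t) (2^i - 1) + ε`, and for `t = 1` at most `β + ε`.

(2) If `F` satisfies Leopoldt's conjecture at `2` (for example if `F/ℚ` is abelian), then the share of the `L` which
satisfy it is at least `1 - β - ε`. Here `1 - β` is `2/7` for `e = 0` (for example if `L` is totally real) and tends to `1` for
`e → ∞`.

Proof. A relation between units of relative norm `1` over the `2`-adic integers gives units `w` of relative norm `1`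
which are arbitrarily close to (torsion) × (square of a unit of norm `1`). The number `a = N(1 + w) = 2 + Tr w` then has
even valuation at the unramified odd places, is a square up to `D = -d` at the ramified ones, is positive where `D` is,
and is, up to squares, the class of a torsion point of the torus `x² + D z² = 1` at the places above `2`; such points
have only two classes. `t` additional relations give a group of `2^t` such classes modulo `D`. By reciprocity and
Chebotarev's theorem the tables of residue symbols which describe the group of these `a` are equidistributed over the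
ensemble, and one can compute the mean of the number of the `t`-tuples of independent elements.

The parts were proved together with helpers 1, 7 (who found and proved the bounds for the higher moments), 14, 53,
96, 129, 150, 151, 182, 198 and 208.
-/

set_option autoImplicit false

namespace Pool.Agent.Results.MP_5f2860_nt.MostQuadraticExtensions

open NumberField IsDedekindDomain Filter Topology

section Ensemble

variable {F : Type} [Field F] [NumberField F]

/-- The valuation of `a` at `v` is odd. -/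
def OddAt (v : HeightOneSpectrum (𝓞 F)) (a : F) : Prop :=
  ∃ n : ℤ, v.valuation F a = WithZero.exp (2 * n + 1)

/-- `a` is a nonzero square in the completion of `F` at `v`. -/
def SquareAt (v : HeightOneSpectrum (𝓞 F)) (a : F) : Prop :=
  a ≠ 0 ∧ IsSquare (algebraMap F (v.adicCompletion F) a)

/-- `v` lies above a prime number `l ≤ y`. -/
def Small (y : ℕ) (v : HeightOneSpectrum (𝓞 F)) : Prop :=
  ∃ l : ℕ, l.Prime ∧ l ≤ y ∧ (l : 𝓞 F) ∈ v.asIdeal

/-- Among the primes not above prime numbers `≤ y` the number `d` has odd valuation exactly at the `q i`; and at the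
other primes and at the real places it is equal to `d₀` up to squares. So `F(√d)` is ramified, among the primes not
above prime numbers `≤ y`, exactly at the `q i`, and its completions at the other primes and at the real
places are those of `F(√d₀)`. -/
structure Fits (y : ℕ) (d₀ : F) {k : ℕ} (q : Fin k → HeightOneSpectrum (𝓞 F)) (d : F) : Prop where
  ne : d ≠ 0
  ram : ∀ v : HeightOneSpectrum (𝓞 F), ¬ Small y v → (OddAt v d ↔ ∃ i, q i = v)
  loc : ∀ v : HeightOneSpectrum (𝓞 F), Small y v → SquareAt v (d * d₀)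
  real : ∀ φ : F →+* ℝ, 0 < φ (d * d₀)

/-- The ensemble: the tuples of `k` different primes `q i`, not above prime numbers `≤ y`, of norm `≤ X i`, to which a
`d` belongs. -/
def Ensemble (y : ℕ) (d₀ : F) {k : ℕ} (X : Fin k → ℕ) : Set (Fin k → HeightOneSpectrum (𝓞 F)) :=
  {q | (Function.Injective q ∧ ∀ i, ¬ Small y (q i) ∧ Ideal.absNorm (q i).asIdeal ≤ X i) ∧
    ∃ d, Fits y d₀ q d}

/-- The number of the complex places of `F(√d₀)` minus the number of the complex places of `F`: the number of the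
complex places of `F` and of the real places at which `d₀` is negative. -/
noncomputable def newComplex (d₀ : F) : ℕ :=
  InfinitePlace.nrComplexPlaces F + Nat.card {φ : F →+* ℝ // φ d₀ < 0}

end Ensemble

/-- `P X` is true for all large `X 0`, for all `X 1` which are large in terms of `X 0`, …, for all `X (k-1)` which are
large in terms of the others. -/
def Nested : (k : ℕ) → ((Fin k → ℕ) → Prop) → Prop
  | 0, P => P Fin.elim0
  | k + 1, P => Nested k fun X => ∀ᶠ x : ℕ in atTop, P (Fin.snoc (α := fun _ => ℕ) X x)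

/-- `L` is the quadratic extension `F(√d)`. -/
structure IsQuadratic (F L : Type) [Field F] [Field L] [Algebra F L] (d : F) : Prop where
  deg : Module.finrank F L = 2
  nsq : ¬ IsSquare d
  root : ∃ x : L, x ^ 2 = algebraMap F L d

/-- Leopoldt's conjecture for the number field `K` and the prime `p`, in the form of the frozen statement. -/
def Leopoldt (K : Type) [Field K] [NumberField K] (p : ℕ) [Fact p.Prime] : Prop :=
  ∀ (n : ℕ) (ε : Fin n → (𝓞 K)ˣ),
    (∀ i, ((ε i : 𝓞 K) - 1) ∈ (Ideal.span {((p : ℕ) : 𝓞 K)}).radical) →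
    (∀ c : Fin n → ℤ, ∏ i, ε i ^ c i = 1 → c = 0) →
    ∀ (a : Fin n → PadicInt p) (m : ℕ → Fin n → ℤ),
      (∀ i, Tendsto (fun k => ((m k i : ℤ) : PadicInt p)) atTop (𝓝 (a i))) →
      (∀ N : ℕ, ∀ᶠ k in atTop,
        ((p : ℕ) : 𝓞 K) ^ N ∣ (((∏ i, ε i ^ m k i : (𝓞 K)ˣ) : 𝓞 K) - 1)) →
      a = 0

/-- The vector `a` of `2`-adic integers is a relation between the units `ε i`: there are integral vectors `m k` which
tend to `a`, such that the units `∏ ε i ^ m k i` tend `2`-adically to `1`. -/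
def IsRelation (K : Type) [Field K] [NumberField K] {n : ℕ} (ε : Fin n → (𝓞 K)ˣ) (a : Fin n → ℤ_[2]) : Prop :=
  ∃ m : ℕ → Fin n → ℤ, (∀ i, Tendsto (fun k => ((m k i : ℤ) : ℤ_[2])) atTop (𝓝 (a i))) ∧
    ∀ N : ℕ, ∀ᶠ k in atTop, (2 : 𝓞 K) ^ N ∣ ((∏ i, ε i ^ m k i : (𝓞 K)ˣ) : 𝓞 K) - 1

/-- The Leopoldt defect of `K` at `2` is at least `t`: there are multiplicatively independent units of `K` with `t`
relations which are linearly independent over the `2`-adic integers. -/
def DefectAtLeast (K : Type) [Field K] [NumberField K] (t : ℕ) : Prop :=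
  ∃ (n : ℕ) (ε : Fin n → (𝓞 K)ˣ), (∀ c : Fin n → ℤ, ∏ i, ε i ^ c i = 1 → c = 0) ∧
    ∃ a : Fin t → Fin n → ℤ_[2], LinearIndependent ℤ_[2] a ∧ ∀ j, IsRelation K ε (a j)

/-- `μ^t / ∏_(i ≤ t) (2^i - 1)`, `μ = 2^(-e)` -/
noncomputable def bound (e t : ℕ) : ℝ := ((1 / 2) ^ e) ^ t / ∏ i ∈ Finset.range t, ((2 : ℝ) ^ (i + 1) - 1)

/-- `β = μ - μ²/3 + μ³/21`, `μ = 2^(-e)` -/
noncomputable def beta (e : ℕ) : ℝ := (1 / 2) ^ e - ((1 / 2) ^ e) ^ 2 / 3 + ((1 / 2) ^ e) ^ 3 / 21

section Proof

theorem nested_iff : ∀ (k : ℕ) (P : (Fin k → ℕ) → Prop), Nested k P ↔ Q283.LQ.Nest k P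
  | 0, _ => Iff.rfl
  | k + 1, _ => nested_iff k _

theorem defect_iff (K : Type) [Field K] [NumberField K] (t : ℕ) :
    DefectAtLeast K t ↔ Q283.LQ.Df K (Ideal.span {2}) t := by
  unfold DefectAtLeast Q283.LQ.Df IsRelation Q283.LQ.Rel
  simp only [Ideal.span_singleton_pow, Ideal.mem_span_singleton]

theorem leopoldt_iff (K : Type) [Field K] [NumberField K] : Leopoldt K 2 ↔ ¬ DefectAtLeast K 1 := by
  rw [defect_iff]
  exact Q283.LQ.t_LEO K

variable {F : Type} [Field F] [NumberField F]

theorem fits_iff {y : ℕ} {d₀ : F} {k : ℕ} {q : Fin k → HeightOneSpectrum (𝓞 F)} {d : F} :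
    Fits y d₀ q d ↔ Q283.LQ.Fits y d₀ q d := by
  constructor
  · intro h
    exact ⟨h.ne, h.ram, fun v hv => (Q198.LQ.lsq_iff v _).mpr (h.loc v hv), h.real⟩
  · intro h
    exact ⟨h.ne, h.ram, fun v hv => (Q198.LQ.lsq_iff v _).mp (h.loc v hv), h.real⟩

theorem newComplex_eq (d₀ : F) : Q283.LQ.ex (-d₀) = newComplex d₀ := by
  unfold Q283.LQ.ex newComplex
  simp only [map_neg, neg_pos]

theorem loc_two : Q283.LQ.Loc (Q283.LQ.AI (Ideal.span {(2 : 𝓞 F)})) (fun _ => 0) := by
  have h := Q283.LQ.t_ATL F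
  have e : ∀ (v : HeightOneSpectrum (𝓞 F)) (D a : F), Q283.LQ.Dy v →
      (Q283.LQ.AI (Ideal.span {(2 : 𝓞 F)}) v D a ↔ Q283.LQ.AT v D a) := by
    intro v D a hv
    have h1 : Ideal.span {(2 : 𝓞 F)} ≤ v.asIdeal := by
      rw [Ideal.span_singleton_le_iff_mem]
      exact hv
    unfold Q283.LQ.AI
    tauto
  exact {
    ne := fun v D a hv hD ha => h.ne v D a hv hD ((e v D a hv).mp ha)
    mul := fun v D a b hv hD ha hb => (e v D _ hv).mpr (h.mul v D a b hv hD ((e v D a hv).mp ha) hb)
    inv := fun v D n a hv hD hn ha => (e v _ a hv).mpr (h.inv v D n a hv hD hn ((e v D a hv).mp ha))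
    clo := fun v D a hv hD ha => (e v D _ hv).mpr (h.clo v D a hv hD ((e v D a hv).mp ha))
    num := fun v D hv hD B hB => h.num v D hv hD B (fun b hb => (e v D b hv).mp (hB b hb))
    zero := h.zero }

/-- the complement of the bad set -/
theorem compl_bound {α : Type} {E B G : Set α} (hE : E.Finite) (hB : B ⊆ E) (hG : G ⊆ E) (h : ∀ q ∈ E, q ∈ B ∨ q ∈ G)
    {b : ℝ} (hb : (B.ncard : ℝ) ≤ b * E.ncard) : (1 - b) * E.ncard ≤ (G.ncard : ℝ) := by
  have h1 : E ⊆ B ∪ G := fun q hq => h q hq
  have h2 := Set.ncard_le_ncard h1 ((hE.subset hB).union (hE.subset hG))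
  have h3 := Set.ncard_union_le B G
  have h4 : (E.ncard : ℝ) ≤ B.ncard + G.ncard := by exact_mod_cast h2.trans h3
  have h5 : (1 - b) * (E.ncard : ℝ) = E.ncard - b * E.ncard := by ring
  rw [h5]
  linarith

end Proof

/-- **Main result.** -/
theorem result (F : Type) [Field F] [NumberField F] :
    (∃ y₀ : ℕ, ∀ y, y₀ ≤ y → ∀ d₀ : F, d₀ ≠ 0 →
      (∀ (k : ℕ) (q : Fin k → HeightOneSpectrum (𝓞 F)) (d d' : F),
        Fits y d₀ q d → Fits y d₀ q d' → IsSquare (d * d')) ∧
      ∀ ε : ℝ, 0 < ε → ∃ k₀ : ℕ, ∀ k, k₀ ≤ k → Nested k fun X =>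
        (Ensemble y d₀ X).Finite ∧ (Ensemble y d₀ X).Nonempty ∧
        (∀ t : ℕ, 1 ≤ t →
          ({q ∈ Ensemble y d₀ X | ∃ (s : ℕ) (d : F), Fits y d₀ q d ∧ ¬ DefectAtLeast F (s + 1) ∧
              ∃ (L : Type) (_ : Field L) (_ : NumberField L) (_ : Algebra F L),
                IsQuadratic F L d ∧ DefectAtLeast L (s + t)}.ncard : ℝ) ≤
            (min (bound (newComplex d₀) t) (beta (newComplex d₀)) + ε) * (Ensemble y d₀ X).ncard) ∧
        ((Leopoldt F 2 ∨ (IsGalois ℚ F ∧ ∀ g h : F ≃ₐ[ℚ] F, g * h = h * g)) →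
          (1 - beta (newComplex d₀) - ε) * (Ensemble y d₀ X).ncard ≤
            ({q ∈ Ensemble y d₀ X | ∀ (d : F) (L : Type) [Field L] [NumberField L] [Algebra F L],
              Fits y d₀ q d → IsQuadratic F L d → Leopoldt L 2}.ncard : ℝ))) ∧
    beta 0 = 5 / 7 ∧ beta 1 = 71 / 168 := by
  refine ⟨?_, by norm_num [beta], by norm_num [beta]⟩
  obtain ⟨y1, hy1⟩ := Q283.LQ.share_min F
  obtain ⟨y2, hy2⟩ := Q283.LQ.uniq F
  refine ⟨max y1 y2, fun y hy d₀ hd₀ => ⟨fun k q d d' hd hd' => ?_, fun ε hε => ?_⟩⟩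
  · exact hy2 y (le_trans (le_max_right _ _) hy) d₀ hd₀ k q d d' (fits_iff.mp hd) (fits_iff.mp hd')
  obtain ⟨k0, hk0⟩ := hy1 y (le_trans (le_max_left _ _) hy) (Q283.LQ.AI (Ideal.span {2}))
    loc_two (Q7.LM.locG_AI _) (-d₀) (neg_ne_zero.mpr hd₀) ε hε
  refine ⟨max k0 1, fun k hk => (nested_iff k _).mpr (Q283.LQ.nest_mono k _ _ (fun X hX => ?_)
    (hk0 k (le_trans (le_max_left _ _) hk)))⟩
  have hk1 : 1 ≤ k := le_trans (le_max_right _ _) hk
  obtain ⟨hfin, hpos, hst⟩ := hX
  have hE : Ensemble y d₀ X =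
      {q ∈ (Q283.LQ.Box y X : Set (Fin k → HeightOneSpectrum (𝓞 F))) | ∃ d, Q283.LQ.Fits y (-d₀) q d} := by
    ext q
    simp only [Ensemble, Q283.LQ.Box, Set.mem_ofPred_eq, fits_iff, Q283.LQ.fits_neg_iff]
    rfl
  have hEfin : (Ensemble y d₀ X).Finite := by
    rw [hE]
    exact hfin.subset (fun q hq => hq.1)
  rw [← hE] at hpos hst
  have hmap : ∀ (L : Type) [Field L] [NumberField L] [Algebra F L],
      (Ideal.span {(2 : 𝓞 F)}).map (algebraMap (𝓞 F) (𝓞 L)) = Ideal.span {2} := by
    intro L _ _ _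
    rw [Ideal.map_span, Set.image_singleton, map_ofNat]
  have hmain : ∀ t : ℕ, 1 ≤ t →
      ({q ∈ Ensemble y d₀ X | ∃ (s : ℕ) (d : F), Fits y d₀ q d ∧ ¬ DefectAtLeast F (s + 1) ∧
          ∃ (L : Type) (_ : Field L) (_ : NumberField L) (_ : Algebra F L),
            IsQuadratic F L d ∧ DefectAtLeast L (s + t)}.ncard : ℝ) ≤
        (min (bound (newComplex d₀) t) (beta (newComplex d₀)) + ε) * (Ensemble y d₀ X).ncard := by
    intro t ht
    have h1 := hst t ht
    rw [newComplex_eq] at h1
    refine le_trans ?_ h1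
    have h2 : {q ∈ Ensemble y d₀ X | ∃ (s : ℕ) (d : F), Fits y d₀ q d ∧ ¬ DefectAtLeast F (s + 1) ∧
          ∃ (L : Type) (_ : Field L) (_ : NumberField L) (_ : Algebra F L),
            IsQuadratic F L d ∧ DefectAtLeast L (s + t)} ⊆
        {q ∈ (Q283.LQ.Box y X : Set (Fin k → HeightOneSpectrum (𝓞 F))) | ∃ D, Q283.LQ.Fits y (-d₀) q D ∧
          Q283.LQ.Many (Q283.LQ.AI (Ideal.span {2})) D (2 ^ t - 1)} := by
      rintro q ⟨hq, s, d, hd, hs, L, i1, i2, i3, hL, hdef⟩
      refine ⟨hq.1, -d, Q283.LQ.fits_neg (fits_iff.mp hd), ?_⟩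
      refine Q283.LQ.t_CR2' F L d ⟨hL.deg, hL.root⟩ hL.nsq (Ideal.span {2}) (Ideal.mem_span_singleton_self 2) s t
        (fun h => hs ((defect_iff F (s + 1)).mpr h)) ?_
      rw [hmap L]
      exact (defect_iff L _).mp hdef
    exact_mod_cast Set.ncard_le_ncard h2 (hfin.subset (fun q hq => hq.1))
  refine ⟨hEfin, ?_, hmain, fun hF => ?_⟩
  · rw [← Set.ncard_pos hEfin]
    exact_mod_cast hpos
  · have hF' : Leopoldt F 2 := by
      rcases hF with h | ⟨h1, h2⟩
      · exact h
      · exact Y944.LC.bru F 2 h1 h2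
    have h1 : ({q ∈ Ensemble y d₀ X | ∃ (s : ℕ) (d : F), Fits y d₀ q d ∧ ¬ DefectAtLeast F (s + 1) ∧
          ∃ (L : Type) (_ : Field L) (_ : NumberField L) (_ : Algebra F L),
            IsQuadratic F L d ∧ DefectAtLeast L (s + 1)}.ncard : ℝ) ≤
        (beta (newComplex d₀) + ε) * (Ensemble y d₀ X).ncard := by
      refine (hmain 1 le_rfl).trans ?_
      gcongr
      exact min_le_right _ _
    refine le_trans (le_of_eq (by ring)) (compl_bound hEfin (fun q hq => hq.1) (fun q hq => hq.1)
      (fun q hq => ?_) h1)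
    by_cases hc : q ∈ {q ∈ Ensemble y d₀ X | ∃ (s : ℕ) (d : F), Fits y d₀ q d ∧ ¬ DefectAtLeast F (s + 1) ∧
          ∃ (L : Type) (_ : Field L) (_ : NumberField L) (_ : Algebra F L),
            IsQuadratic F L d ∧ DefectAtLeast L (s + 1)}
    · exact Or.inl hc
    · refine Or.inr ⟨hq, ?_⟩
      intro d L i1 i2 i3 hd hL
      rw [leopoldt_iff]
      intro hdef
      refine hc ⟨hq, 0, d, hd, ?_, L, i1, i2, i3, hL, ?_⟩
      · rw [zero_add]
        exact (leopoldt_iff F).mp hF'
      · rw [zero_add]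
        exact hdef

end Pool.Agent.Results.MP_5f2860_nt.MostQuadraticExtensions
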